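import Pool.Agent.H56.JW.Targets

/-!
# MP_959f6e_co, row HAMF: a spanning cycle is a Hamiltonian cycle
-/

set_option autoImplicit false

open Finset

namespace Pool.Agent.H7.JW

open Pool.Agent.H56.JW

open Classical in
theorem pf_HAMF : T_HAMF := by
  intro V _ _ G C hC hCG h3
  obtain ⟨-, hd, hr⟩ := hC
  have hd' : ∀ v, (C.neighborSet v).ncard = 2 := fun v => hd v (Finset.mem_univ v)
  have hcyc : C.IsCycles := fun v _ => hd' v
  obtain ⟨v⟩ : Nonempty V := Fintype.card_pos_iff.1 (by omega)
  have hn : (C.neighborSet v).Nonempty := by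
    rw [← Set.ncard_pos (Set.toFinite _), hd' v]
    norm_num
  obtain ⟨p, hp, hpv⟩ := hcyc.exists_cycle_toSubgraph_verts_eq_connectedComponentSupp
    (c := C.connectedComponentMk v) rfl hn
  have hmem : ∀ w, w ∈ p.support := by
    intro w
    rw [← SimpleGraph.Walk.mem_verts_toSubgraph, hpv, SimpleGraph.ConnectedComponent.mem_supp_iff,
      SimpleGraph.ConnectedComponent.eq]
    exact hr w (Finset.mem_univ w) v (Finset.mem_univ v)
  have hHC : C.IsHamiltonian := by
    intro _
    refine ⟨v, p, ?_⟩
    rw [SimpleGraph.Walk.isHamiltonianCycle_iff_isCycle_and_support_count_tail_eq_one]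
    refine ⟨hp, fun w => List.count_eq_one_of_mem hp.support_nodup ?_⟩
    have h1 := hmem w
    rw [← SimpleGraph.Walk.cons_tail_support] at h1
    rcases List.mem_cons.1 h1 with h | h
    · rw [h]
      exact SimpleGraph.Walk.end_mem_tail_support hp.not_nil
    · exact h
  exact hHC.mono hCG

end Pool.Agent.H7.JW
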