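import Pool.Agent.H56.JW.Targets

/-!
# MP_959f6e_co, row FDX: the degrees of the outer graph at leftover vertices
-/

set_option autoImplicit false

open Finset

namespace Pool.Agent.H7.JW

open Pool.Agent.H56.JW

/-- the other ends of the edges of `E` at `x` -/
theorem ncard_other {V : Type} [DecidableEq V] (E : Finset (Sym2 V)) (x : V) :
    {v | s(x, v) ∈ E}.ncard = edeg E x := by
  classical
  unfold edeg
  have h1 : (fun v => s(x, v)) '' {v | s(x, v) ∈ E} = ((E.filter fun e => x ∈ e : Finset (Sym2 V)) : Set (Sym2 V)) := by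
    ext e
    constructor
    · rintro ⟨v, hv, rfl⟩
      exact Finset.mem_coe.2 (Finset.mem_filter.2 ⟨hv, Sym2.mem_mk_left _ _⟩)
    · intro he
      obtain ⟨he1, he2⟩ := Finset.mem_filter.1 (Finset.mem_coe.1 he)
      obtain ⟨v, rfl⟩ := he2
      exact ⟨v, he1, rfl⟩
  rw [← Set.ncard_coe_finset, ← h1]
  symm
  apply Set.ncard_image_of_injective
  intro a b hab
  exact Sym2.congr_right.1 hab

open Classical in
theorem pf_FDX : T_FDX := by
  intro V _ _ G L X lab q T1 T2 at' hL hSel J hJ x hx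
  have hval := hSel.val
  have hdis := hSel.dis
  have hdg := hL.deg x
  -- membership
  have hadj : ∀ v, (FG L X T1 T2 J at').Adj x v ↔ s(x, v) ∈ fed L X T1 T2 J at' ∧ x ≠ v := by
    intro v
    unfold FG
    rw [SimpleGraph.fromEdgeSet_adj]
  have hiso : ∀ v, v ∈ iso (T1 ∪ T2) ↔ ∃ κ ∈ T1 ∪ T2, v ∈ κ.D := by
    intro v
    unfold iso
    rw [Finset.mem_biUnion]
  have hmem : ∀ v, s(x, v) ∈ fed L X T1 T2 J at' ↔
      (L.Adj x v ∧ x ∉ iso (T1 ∪ T2) ∧ v ∉ iso (T1 ∪ T2)) ∨
      (∃ κ ∈ T1 ∪ T2, s(x, v) ∈ κ.E (stt T1 J κ)) ∨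
      (x ∉ iso (T1 ∪ T2) ∧ ∃ j, Opn L X x j ∧ v = at' x j) := by
    intro v
    unfold fed
    rw [Set.mem_union, Set.mem_union]
    simp only [Set.mem_ofPred_eq]
    constructor
    · rintro ((⟨h1, h2⟩ | h) | ⟨y, j, h1, h2, h3⟩)
      · left
        exact ⟨h1, fun h => h2 x h (Sym2.mem_mk_left _ _), fun h => h2 v h (Sym2.mem_mk_right _ _)⟩
      · right; left; exact h
      · right; right
        rcases Sym2.eq_iff.1 h3 with ⟨h, h'⟩ | ⟨h, h'⟩
        · rw [← h] at h1 h2 h'
          exact ⟨h2, j, h1, h'⟩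
        · exact absurd (h ▸ hx) (hSel.at1 y j h1).1
    · rintro (⟨h1, h2, h3⟩ | h | ⟨h2, j, h1, h3⟩)
      · left; left
        refine ⟨h1, fun y hy hye => ?_⟩
        rcases Sym2.mem_iff.1 hye with h | h
        · exact h2 (h ▸ hy)
        · exact h3 (h ▸ hy)
      · left; right; exact h
      · right
        exact ⟨x, j, h1, h2, by rw [h3]⟩
  have hloop : ∀ v, s(x, v) ∈ fed L X T1 T2 J at' → x ≠ v := by
    intro v hv
    rcases (hmem v).1 hv with ⟨h, -⟩ | ⟨κ, hκ, h⟩ | ⟨-, j, h1, h3⟩
    · exact h.ne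
    · have := (hval κ hκ).adj _ _ h
      exact this.ne
    · intro h
      exact (hSel.at1 x j h1).1 (h3 ▸ h ▸ hx)
  have hns : (FG L X T1 T2 J at').neighborSet x = {v | s(x, v) ∈ fed L X T1 T2 J at'} := by
    ext v
    rw [SimpleGraph.mem_neighborSet, hadj]
    exact ⟨fun h => h.1, fun h => ⟨h, hloop v h⟩⟩
  -- supports
  have huniq : ∀ κ ∈ T1 ∪ T2, ∀ κ' ∈ T1 ∪ T2, ∀ v, v ∈ κ.sup L → v ∈ κ'.sup L → κ = κ' := by
    intro κ hκ κ' hκ' v h1 h2
    by_contra hne
    exact Finset.disjoint_left.1 (hdis κ hκ κ' hκ' hne) h1 h2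
  have hDs : ∀ κ : Cn V, ∀ v ∈ κ.D, v ∈ κ.sup L := by
    intro κ v hv
    unfold Cn.sup
    exact Finset.mem_union_left _ (Finset.mem_union_left _ hv)
  have hsup : ∀ κ ∈ T1 ∪ T2, ∀ i u v, s(u, v) ∈ κ.E i → u ∈ κ.sup L := by
    intro κ hκ i u v h
    exact (hval κ hκ).sup i u v h
  unfold dg
  rw [hns]
  by_cases hxi : x ∈ iso (T1 ∪ T2)
  · obtain ⟨κ, hκ, hxD⟩ := (hiso x).1 hxi
    have e1 : {v | s(x, v) ∈ fed L X T1 T2 J at'} = {v | s(x, v) ∈ κ.E (stt T1 J κ)} := by
      ext v
      show s(x, v) ∈ fed L X T1 T2 J at' ↔ s(x, v) ∈ κ.E (stt T1 J κ)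
      rw [hmem]
      constructor
      · rintro (⟨-, h, -⟩ | ⟨κ', hκ', h⟩ | ⟨h, -⟩)
        · exact absurd hxi h
        · have := huniq κ hκ κ' hκ' x (hDs κ x hxD) (hsup κ' hκ' _ _ _ h)
          rw [this]
          exact h
        · exact absurd hxi h
      · intro h
        exact Or.inr (Or.inl ⟨κ, hκ, h⟩)
    rw [e1, ncard_other]
    exact (hval κ hκ).dD _ x hxD
  · -- the three parts
    obtain ⟨A, hA⟩ : ∃ A : Set V, A = {v | L.Adj x v ∧ v ∉ iso (T1 ∪ T2)} := ⟨_, rfl⟩
    obtain ⟨B, hB⟩ : ∃ B : Set V, B = {v | ∃ κ ∈ T1 ∪ T2, s(x, v) ∈ κ.E (stt T1 J κ)} := ⟨_, rfl⟩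
    obtain ⟨C, hC⟩ : ∃ C : Set V, C = {v | ∃ j, Opn L X x j ∧ v = at' x j} := ⟨_, rfl⟩
    obtain ⟨I, hI⟩ : ∃ I : Set V, I = {v | L.Adj x v ∧ v ∈ iso (T1 ∪ T2)} := ⟨_, rfl⟩
    have e1 : {v | s(x, v) ∈ fed L X T1 T2 J at'} = A ∪ (B ∪ C) := by
      ext v
      show s(x, v) ∈ fed L X T1 T2 J at' ↔ v ∈ A ∪ (B ∪ C)
      rw [hmem, Set.mem_union, Set.mem_union, hA, hB, hC]
      constructor
      · rintro (⟨h1, -, h2⟩ | h | ⟨-, h⟩)
        · exact Or.inl ⟨h1, h2⟩
        · exact Or.inr (Or.inl h)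
        · exact Or.inr (Or.inr h)
      · rintro (⟨h1, h2⟩ | h | h)
        · exact Or.inl ⟨h1, hxi, h2⟩
        · exact Or.inr (Or.inl h)
        · exact Or.inr (Or.inr ⟨hxi, h⟩)
    have hAX : ∀ v ∈ A, v ∈ X := by
      intro v hv
      rw [hA] at hv
      exact (hL.inX x v hv.1).2
    have hBP : ∀ v ∈ B, v ∉ X ∧ ∃ κ ∈ T1 ∪ T2, v ∈ κ.P := by
      intro v hv
      rw [hB] at hv
      obtain ⟨κ, hκ, h⟩ := hv
      have h1 : v ∉ X := by
        intro hvX
        have := ((hval κ hκ).XX _ x v h hx hvX).1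
        exact hxi ((hiso x).2 ⟨κ, hκ, this⟩)
      refine ⟨h1, κ, hκ, ?_⟩
      have h2 : v ∈ κ.D ∪ nbs L κ.D ∪ κ.P := by
        rw [Sym2.eq_swap] at h
        exact (hval κ hκ).sup _ v x h
      rw [Finset.mem_union, Finset.mem_union] at h2
      rcases h2 with (h2 | h2) | h2
      · exact absurd ((hval κ hκ).DX h2) h1
      · unfold nbs at h2
        obtain ⟨-, -, y, -, h3⟩ := Finset.mem_filter.1 h2
        exact absurd (hL.inX v y h3).1 h1
      · exact h2
    have hCX : ∀ v ∈ C, v ∉ X := by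
      intro v hv
      rw [hC] at hv
      obtain ⟨j, hj, rfl⟩ := hv
      exact (hSel.at1 x j hj).1
    have dAB : Disjoint A (B ∪ C) := by
      rw [Set.disjoint_left]
      rintro v hv (h | h)
      · exact (hBP v h).1 (hAX v hv)
      · exact hCX v h (hAX v hv)
    have dBC : Disjoint B C := by
      rw [Set.disjoint_left]
      intro v hv h
      obtain ⟨-, κ, hκ, hP⟩ := hBP v hv
      rw [hC] at h
      obtain ⟨j, hj, rfl⟩ := h
      exact hSel.at3 x j hj κ hκ hP
    rw [e1, Set.ncard_union_eq dAB (Set.toFinite _) (Set.toFinite _),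
      Set.ncard_union_eq dBC (Set.toFinite _) (Set.toFinite _)]
    -- the L neighbours
    have cA : A.ncard + I.ncard = (L.neighborSet x).ncard := by
      have dAI : Disjoint A I := by
        rw [Set.disjoint_left]
        intro v hv h
        rw [hA] at hv
        rw [hI] at h
        exact hv.2 h.2
      rw [← Set.ncard_union_eq dAI (Set.toFinite _) (Set.toFinite _)]
      congr 1
      ext v
      rw [hA, hI, SimpleGraph.mem_neighborSet, Set.mem_union]
      simp only [Set.mem_ofPred_eq]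
      tauto
    -- the connector at x
    have cB : B.ncard = I.ncard := by
      by_cases hex : ∃ κ ∈ T1 ∪ T2, x ∈ κ.sup L
      · obtain ⟨κ, hκ, hxs⟩ := hex
        have hxD : x ∉ κ.D := fun h => hxi ((hiso x).2 ⟨κ, hκ, h⟩)
        have hxN : x ∈ nbs L κ.D := by
          unfold Cn.sup at hxs
          rw [Finset.mem_union, Finset.mem_union] at hxs
          rcases hxs with (h | h) | h
          · exact absurd h hxD
          · exact h
          · exact absurd hx ((hval κ hκ).PX x h)
        have eB : B = {v | s(x, v) ∈ κ.E (stt T1 J κ)} := by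
          rw [hB]
          ext v
          simp only [Set.mem_ofPred_eq]
          constructor
          · rintro ⟨κ', hκ', h⟩
            have := huniq κ hκ κ' hκ' x hxs (hsup κ' hκ' _ _ _ h)
            rw [this]
            exact h
          · intro h
            exact ⟨κ, hκ, h⟩
        have eI : I = ((κ.D.filter fun y => L.Adj x y : Finset V) : Set V) := by
          rw [hI]
          ext v
          rw [Finset.mem_coe, Finset.mem_filter]
          simp only [Set.mem_ofPred_eq]
          constructor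
          · rintro ⟨h1, h2⟩
            obtain ⟨κ', hκ', h3⟩ := (hiso v).1 h2
            have h4 : x ∈ κ'.sup L := by
              unfold Cn.sup
              refine Finset.mem_union_left _ (Finset.mem_union_right _ ?_)
              unfold nbs
              exact Finset.mem_filter.2 ⟨Finset.mem_univ _,
                fun h => hxi ((hiso x).2 ⟨κ', hκ', h⟩), v, h3, h1⟩
            have := huniq κ hκ κ' hκ' x hxs h4
            rw [this]
            exact ⟨h3, h1⟩
          · rintro ⟨h1, h2⟩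
            exact ⟨h2, (hiso v).2 ⟨κ, hκ, h1⟩⟩
        rw [eB, ncard_other, eI, Set.ncard_coe_finset, (hval κ hκ).dN _ x hxN]
        unfold pdeg
        congr
      · have eB : B = ∅ := by
          rw [Set.eq_empty_iff_forall_notMem]
          intro v hv
          rw [hB] at hv
          obtain ⟨κ, hκ, h⟩ := hv
          exact hex ⟨κ, hκ, hsup κ hκ _ _ _ h⟩
        have eI : I = ∅ := by
          rw [Set.eq_empty_iff_forall_notMem]
          intro v hv
          rw [hI] at hv
          obtain ⟨κ, hκ, h⟩ := (hiso v).1 hv.2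
          refine hex ⟨κ, hκ, ?_⟩
          unfold Cn.sup
          refine Finset.mem_union_left _ (Finset.mem_union_right _ ?_)
          unfold nbs
          exact Finset.mem_filter.2 ⟨Finset.mem_univ _,
            fun h => hxi ((hiso x).2 ⟨κ, hκ, h⟩), v, h, hv.1⟩
        rw [eB, eI]
    -- the attachments
    have cC : C.ncard = 2 - dg L x := by
      have eC : C = (at' x) '' {j | Opn L X x j} := by
        rw [hC]
        ext v
        simp only [Set.mem_ofPred_eq, Set.mem_image]
        exact ⟨fun ⟨j, h1, h2⟩ => ⟨j, h1, h2.symm⟩, fun ⟨j, h1, h2⟩ => ⟨j, h1, h2.symm⟩⟩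
      rw [eC, Set.InjOn.ncard_image]
      · have e2 : {j : Fin 2 | Opn L X x j} =
            ((univ.filter fun j : Fin 2 => (j : ℕ) < 2 - dg L x : Finset (Fin 2)) : Set (Fin 2)) := by
          ext j
          rw [Finset.mem_coe, Finset.mem_filter]
          simp only [Set.mem_ofPred_eq, Finset.mem_univ, true_and]
          unfold Opn
          constructor
          · rintro ⟨-, h⟩
            omega
          · intro h
            exact ⟨hx, by omega⟩
        rw [e2, Set.ncard_coe_finset]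
        obtain ⟨n, hn⟩ : ∃ n, n = 2 - dg L x := ⟨_, rfl⟩
        rw [← hn]
        have hn2 : n ≤ 2 := by omega
        interval_cases n
        · decide
        · decide
        · decide
      · intro j hj j' hj' h
        exact (hSel.at2 x j x j' hj hj' h).2
    have hdg' : (L.neighborSet x).ncard = dg L x := rfl
    rw [hdg'] at cA
    omega

end Pool.Agent.H7.JW
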