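import Pool.Agent.H56.JW.Targets

/-!
# MP_959f6e_co, row L2G: from a list to a cycle
-/

set_option autoImplicit false

open Finset

namespace Pool.Agent.H7.JW

open Pool.Agent.H56.JW

variable {V : Type}

theorem infix_pair (Q : List V) (u v : V) :
    [u, v] <:+: Q ↔ ∃ i, Q[i]? = some u ∧ Q[i + 1]? = some v := by
  constructor
  · rintro ⟨s, t, rfl⟩
    refine ⟨s.length, ?_, ?_⟩
    · simp
    · simp
  · rintro ⟨i, h1, h2⟩
    obtain ⟨hi, h1⟩ := List.getElem?_eq_some_iff.1 h1
    obtain ⟨hi', h2⟩ := List.getElem?_eq_some_iff.1 h2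
    refine ⟨Q.take i, Q.drop (i + 2), ?_⟩
    have e1 : Q.drop i = u :: v :: Q.drop (i + 2) := by
      rw [List.drop_eq_getElem_cons hi, List.drop_eq_getElem_cons hi', h1, h2]
    rw [List.append_assoc]
    show Q.take i ++ (u :: v :: Q.drop (i + 2)) = Q
    rw [← e1, List.take_append_drop]

/-- the cyclic successor on indices -/
def nx (n i : ℕ) : ℕ := if i + 1 = n then 0 else i + 1

theorem nx_lt (n i : ℕ) (h : i < n) : nx n i < n := by
  unfold nx
  split_ifs <;> omega

open Classical in
theorem pf_L2G : T_L2G := by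
  intro V _ _ Q x y hnd h3 hhd hlt
  obtain ⟨n, hn⟩ : ∃ n, n = Q.length := ⟨_, rfl⟩
  -- indices
  have hx0 : Q[0]? = some x := by
    rw [← List.head?_eq_getElem?]
    exact hhd
  have hyn : Q[n - 1]? = some y := by
    rw [hn, ← List.getLast?_eq_getElem?]
    exact hlt
  have hinj : ∀ (i j : ℕ) (u : V), Q[i]? = some u → Q[j]? = some u → i = j := by
    intro i j u hi hj
    obtain ⟨hi1, hi2⟩ := List.getElem?_eq_some_iff.1 hi
    obtain ⟨hj1, hj2⟩ := List.getElem?_eq_some_iff.1 hj
    exact (List.Nodup.getElem_inj_iff hnd).1 (hi2.trans hj2.symm)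
  -- the relation
  obtain ⟨R, hR⟩ : ∃ R : V → V → Prop, R = fun u v => ∃ i, Q[i]? = some u ∧ Q[nx n i]? = some v :=
    ⟨_, rfl⟩
  have hRm : ∀ u v, R u v ↔ ∃ i, Q[i]? = some u ∧ Q[nx n i]? = some v := fun u v => by rw [hR]
  have hRiff : ∀ u v, R u v ↔ [u, v] <:+: Q ∨ (u = y ∧ v = x) := by
    intro u v
    rw [hRm, infix_pair]
    constructor
    · rintro ⟨i, h1, h2⟩
      have hi : i < n := by
        rw [hn]
        exact (List.getElem?_eq_some_iff.1 h1).1
      by_cases hin : i + 1 = n
      · right
        have hi' : i = n - 1 := by omega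
        rw [hi', hyn] at h1
        unfold nx at h2
        rw [if_pos hin, hx0] at h2
        exact ⟨(Option.some.inj h1).symm, (Option.some.inj h2).symm⟩
      · left
        unfold nx at h2
        rw [if_neg hin] at h2
        exact ⟨i, h1, h2⟩
    · rintro (⟨i, h1, h2⟩ | ⟨rfl, rfl⟩)
      · have hi : i + 1 < n := by
          rw [hn]
          exact (List.getElem?_eq_some_iff.1 h2).1
        refine ⟨i, h1, ?_⟩
        unfold nx
        rw [if_neg (by omega)]
        exact h2
      · refine ⟨n - 1, hyn, ?_⟩
        unfold nx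
        rw [if_pos (by omega)]
        exact hx0
  have hRne : ∀ u v, R u v → u ≠ v := by
    intro u v h huv
    obtain ⟨i, h1, h2⟩ := (hRm u v).1 h
    have hi : i < n := by
      rw [hn]
      exact (List.getElem?_eq_some_iff.1 h1).1
    rw [← huv] at h2
    have := hinj _ _ _ h1 h2
    unfold nx at this
    split_ifs at this <;> omega
  obtain ⟨C, hC⟩ : ∃ C : SimpleGraph V, ∀ u v, C.Adj u v ↔ R u v ∨ R v u :=
    ⟨{ Adj := fun u v => R u v ∨ R v u
       symm := ⟨fun u v h => h.symm⟩
       loopless := ⟨fun u h => by rcases h with h | h <;> exact hRne u u h rfl⟩ },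
      fun u v => Iff.rfl⟩
  refine ⟨C, ⟨?_, ?_, ?_⟩, ?_⟩
  · -- inside
    intro u v h
    have key : ∀ a b, R a b → a ∈ Q.toFinset ∧ b ∈ Q.toFinset := by
      intro a b hab
      obtain ⟨i, h1, h2⟩ := (hRm a b).1 hab
      exact ⟨List.mem_toFinset.2 (List.mem_of_getElem? h1),
        List.mem_toFinset.2 (List.mem_of_getElem? h2)⟩
    rcases (hC u v).1 h with h | h
    · exact key u v h
    · exact (key v u h).symm
  · -- degrees
    intro v hv
    obtain ⟨i, hi, hiv⟩ := List.mem_iff_getElem.1 (List.mem_toFinset.1 hv)
    have hin : i < n := by omega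
    have hvi : Q[i]? = some v := List.getElem?_eq_some_iff.2 ⟨hi, hiv⟩
    obtain ⟨a, ha⟩ : ∃ a, Q[nx n i]? = some a := by
      have := nx_lt n i hin
      exact ⟨Q[nx n i]'(by omega), List.getElem?_eq_getElem (by omega)⟩
    obtain ⟨p, hp, hpi⟩ : ∃ p, p < n ∧ nx n p = i := by
      by_cases h0 : i = 0
      · refine ⟨n - 1, by omega, ?_⟩
        unfold nx
        rw [if_pos (by omega), h0]
      · refine ⟨i - 1, by omega, ?_⟩
        unfold nx
        rw [if_neg (by omega)]
        omega
    obtain ⟨b, hb⟩ : ∃ b, Q[p]? = some b :=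
      ⟨Q[p]'(by omega), List.getElem?_eq_getElem (by omega)⟩
    have hab : a ≠ b := by
      intro h
      rw [h] at ha
      have := hinj _ _ _ ha hb
      unfold nx at this hpi
      split_ifs at this hpi <;> omega
    have hnb : C.neighborSet v = {a, b} := by
      ext w
      rw [SimpleGraph.mem_neighborSet, hC]
      constructor
      · rintro (h | h)
        · left
          obtain ⟨j, h1, h2⟩ := (hRm v w).1 h
          have := hinj _ _ _ h1 hvi
          rw [this, ha] at h2
          exact (Option.some.inj h2).symm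
        · right
          obtain ⟨j, h1, h2⟩ := (hRm w v).1 h
          have hj := hinj _ _ _ h2 hvi
          have hjn : j < n := by
            rw [hn]
            exact (List.getElem?_eq_some_iff.1 h1).1
          have : j = p := by
            rw [← hpi] at hj
            unfold nx at hj
            split_ifs at hj <;> omega
          rw [this, hb] at h1
          exact (Option.some.inj h1).symm
      · rintro (rfl | h)
        · left
          exact (hRm _ _).2 ⟨i, hvi, ha⟩
        · right
          rw [Set.mem_singleton_iff.1 h]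
          refine (hRm _ _).2 ⟨p, hb, ?_⟩
          rw [hpi]
          exact hvi
    unfold dg
    rw [hnb, Set.ncard_pair hab]
  · -- connected
    have key : ∀ (i : ℕ) (u : V), Q[i]? = some u → C.Reachable x u := by
      intro i
      induction i with
      | zero =>
        intro u hu
        rw [hx0] at hu
        rw [Option.some.inj hu]
      | succ i ih =>
        intro u hu
        have hi : i + 1 < n := by
          rw [hn]
          exact (List.getElem?_eq_some_iff.1 hu).1
        obtain ⟨w, hw⟩ : ∃ w, Q[i]? = some w :=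
          ⟨Q[i]'(by omega), List.getElem?_eq_getElem (by omega)⟩
        have h1 : C.Adj w u := by
          rw [hC]
          left
          refine (hRm w u).2 ⟨i, hw, ?_⟩
          unfold nx
          rw [if_neg (by omega)]
          exact hu
        exact (ih w hw).trans h1.reachable
    have key2 : ∀ u ∈ Q.toFinset, C.Reachable x u := by
      intro u hu
      obtain ⟨i, hi, hiu⟩ := List.mem_iff_getElem.1 (List.mem_toFinset.1 hu)
      exact key i u (List.getElem?_eq_some_iff.2 ⟨hi, hiu⟩)
    intro u hu v hv
    exact (key2 u hu).symm.trans (key2 v hv)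
  · intro u v
    rw [hC, hRiff, hRiff]
    tauto

end Pool.Agent.H7.JW
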