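import Pool.Agent.H56.JW.Targets

/-!
# MP_959f6e_co, rows MEC, HXC
-/

set_option autoImplicit false

open Finset

namespace Pool.Agent.H7.JW

open Pool.Agent.H56.JW

open Classical in
theorem pf_MEC : T_MEC := by
  intro V _ _ M Z hZ h1
  have h := M.sum_degrees_eq_twice_card_edges
  have hd : ∀ v, M.degree v = dg M v := by
    intro v
    unfold dg
    rw [← SimpleGraph.card_neighborFinset_eq_degree, ← Set.ncard_coe_finset,
      SimpleGraph.coe_neighborFinset]
  have h2 : ∑ v, M.degree v = Z.card := by
    have h3 : ∑ v, M.degree v = ∑ v ∈ Z, M.degree v := by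
      symm
      apply Finset.sum_subset (Finset.subset_univ Z)
      intro v _ hv
      rw [← SimpleGraph.card_neighborFinset_eq_degree, Finset.card_eq_zero]
      rw [Finset.eq_empty_iff_forall_notMem]
      intro w hw
      rw [SimpleGraph.mem_neighborFinset] at hw
      exact hv (hZ v w hw).1
    rw [h3, Finset.sum_congr rfl (fun v hv => (hd v).trans (h1 v hv))]
    simp
  rw [h2] at h
  rw [h, ← SimpleGraph.coe_edgeFinset, Set.ncard_coe_finset]

open Classical in
theorem pf_HXC : T_HXC := by
  intro V _ _ G L X lab q hdg z hz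
  rcases z with ⟨κ, τ, b⟩ | ⟨e, j, b, s⟩
  · have hv : κ.Valid G L X lab := hz.1
    have hD := hv.Dc
    have hP := hv.Pc
    have hN : (nbs L κ.D).card ≤ 4 := by
      have h1 : nbs L κ.D ⊆ κ.D.biUnion fun x => (L.neighborSet x).toFinset := by
        intro s hs
        unfold nbs at hs
        obtain ⟨-, -, x, hx, h⟩ := Finset.mem_filter.1 hs
        refine Finset.mem_biUnion.2 ⟨x, hx, ?_⟩
        rw [Set.mem_toFinset]
        exact h.symm
      have h2 : (κ.D.biUnion fun x => (L.neighborSet x).toFinset).card ≤ ∑ x ∈ κ.D, 2 := by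
        refine Finset.card_biUnion_le.trans (Finset.sum_le_sum fun x _ => ?_)
        have := hdg x
        unfold dg at this
        rwa [Set.ncard_eq_toFinset_card'] at this
      rw [Finset.sum_const, smul_eq_mul] at h2
      have h3 := Finset.card_le_card h1
      omega
    have hs : (κ.sup L).card ≤ 14 := by
      unfold Cn.sup
      have h1 := Finset.card_union_le (κ.D ∪ nbs L κ.D) κ.P
      have h2 := Finset.card_union_le κ.D (nbs L κ.D)
      omega
    refine ⟨⟨Sum.inl κ.a, ?_⟩, ?_⟩
    · unfold spE
      refine Finset.mem_union_left _ (Finset.mem_image.2 ⟨κ.a, ?_, rfl⟩)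
      unfold Cn.sup
      exact Finset.mem_union_right _ hv.aP
    · unfold spE
      refine (Finset.card_union_le _ _).trans ?_
      have h1 : ((κ.sup L).image (Sum.inl : V → V ⊕ (V × ℕ))).card ≤ (κ.sup L).card :=
        Finset.card_image_le
      have h2 : (κ.P.image fun p => (Sum.inr (lab p, τ p) : V ⊕ (V × ℕ))).card ≤ κ.P.card :=
        Finset.card_image_le
      omega
  · unfold spE
    refine ⟨⟨Sum.inl b, by simp⟩, ?_⟩
    exact (Finset.card_le_two (a := (Sum.inl b : V ⊕ (V × ℕ))) (b := Sum.inr (lab b, s))).trans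
      (by norm_num)

end Pool.Agent.H7.JW
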