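import Pool.Agent.H56.JW.Targets

/-!
# MP_959f6e_co, rows SLT, CHZ, S1
-/

set_option autoImplicit false

open Finset

namespace Pool.Agent.H7.JW

open Pool.Agent.H56.JW

theorem pf_SLT : T_SLT := by
  intro V _ _ lab q U P
  induction P using Finset.induction_on with
  | empty =>
    intro _ _
    exact ⟨fun _ => 0, by simp, by simp, by simp⟩
  | insert p P hp ih =>
    intro hc h8
    rw [Finset.card_insert_of_notMem hp] at hc
    obtain ⟨τ, h1, h2, h3⟩ := ih (by omega) (fun p' hp' => h8 p' (Finset.mem_insert_of_mem hp'))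
    have hlt : (P.image τ).card < ((range q).filter fun s => Sum.inr (lab p, s) ∉ U).card := by
      have e1 := h8 p (Finset.mem_insert_self _ _)
      have e2 : (P.image τ).card ≤ P.card := Finset.card_image_le
      omega
    obtain ⟨s, hs, hs'⟩ := Finset.exists_mem_notMem_of_card_lt_card hlt
    rw [Finset.mem_filter, Finset.mem_range] at hs
    have hne : ∀ p' ∈ P, p' ≠ p := fun p' hp' h => hp (h ▸ hp')
    refine ⟨Function.update τ p s, ?_, ?_, ?_⟩
    · intro p' hp'
      rcases Finset.mem_insert.1 hp' with rfl | h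
      · rw [Function.update_self]; exact hs.1
      · rw [Function.update_of_ne (hne p' h)]; exact h1 p' h
    · intro a ha b hb hab
      rcases Finset.mem_insert.1 ha with rfl | ha'
      · rcases Finset.mem_insert.1 hb with rfl | hb'
        · intro _; rfl
        · rw [Function.update_self, Function.update_of_ne (hne b hb')]
          intro h
          exact absurd (Finset.mem_image.2 ⟨b, hb', h.symm⟩) hs'
      · rcases Finset.mem_insert.1 hb with rfl | hb'
        · rw [Function.update_self, Function.update_of_ne (hne a ha')]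
          intro h
          exact absurd (Finset.mem_image.2 ⟨a, ha', h⟩) hs'
        · rw [Function.update_of_ne (hne a ha'), Function.update_of_ne (hne b hb')]
          exact h2 a ha' b hb' hab
    · intro p' hp'
      rcases Finset.mem_insert.1 hp' with rfl | h
      · rw [Function.update_self]; exact hs.2
      · rw [Function.update_of_ne (hne p' h)]; exact h3 p' h

open Classical in
theorem pf_CHZ : T_CHZ := by
  intro V _ _ G X lab q U N A
  induction N using Finset.induction_on with
  | empty =>
    intro _ _
    exact ⟨id, by simp, by simp⟩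
  | insert s N hs ih =>
    intro hc hg
    rw [Finset.card_insert_of_notMem hs] at hc
    obtain ⟨z, h1, h2⟩ := ih (by omega) (fun s' hs' => hg s' (Finset.mem_insert_of_mem hs'))
    have h8 := (hg s (Finset.mem_insert_self _ _)).2.2
    have hlt : (A ∪ N.image z).card < 8 := by
      have e1 := Finset.card_union_le A (N.image z)
      have e2 : (N.image z).card ≤ N.card := Finset.card_image_le
      omega
    obtain ⟨v, hv, hv'⟩ := Finset.exists_mem_notMem_of_card_lt_card (lt_of_lt_of_le hlt h8)
    replace hv := Finset.mem_filter.1 hv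
    rw [Finset.mem_union, not_or] at hv'
    have hne : ∀ t ∈ N, t ≠ s := fun t ht h => hs (h ▸ ht)
    refine ⟨Function.update z s v, ?_, ?_⟩
    · intro t ht
      rcases Finset.mem_insert.1 ht with rfl | h
      · rw [Function.update_self]
        exact ⟨hv.2.1, hv.2.2, hv'.1⟩
      · rw [Function.update_of_ne (hne t h)]
        exact h1 t h
    · intro a ha b hb
      rcases Finset.mem_insert.1 ha with rfl | ha'
      · rcases Finset.mem_insert.1 hb with rfl | hb'
        · intro _; rfl
        · rw [Function.update_self, Function.update_of_ne (hne b hb')]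
          intro h
          exact absurd (Finset.mem_image.2 ⟨b, hb', h.symm⟩) hv'.2
      · rcases Finset.mem_insert.1 hb with rfl | hb'
        · rw [Function.update_self, Function.update_of_ne (hne a ha')]
          intro h
          exact absurd (Finset.mem_image.2 ⟨a, ha', h⟩) hv'.2
        · rw [Function.update_of_ne (hne a ha'), Function.update_of_ne (hne b hb')]
          exact h2 a ha' b hb'

theorem edeg_empty {V : Type} [DecidableEq V] (v : V) : edeg (∅ : Finset (Sym2 V)) v = 0 := by
  unfold edeg
  simp

theorem edeg_singleton {V : Type} [DecidableEq V] (a b v : V) :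
    edeg ({s(a, b)} : Finset (Sym2 V)) v = if v = a ∨ v = b then 1 else 0 := by
  classical
  unfold edeg
  rw [Finset.filter_singleton]
  by_cases h : v = a ∨ v = b
  · rw [if_pos (Sym2.mem_iff.2 h), if_pos h]
    rfl
  · rw [if_neg (fun h' => h (Sym2.mem_iff.1 h')), if_neg h]
    rfl

open Classical in
theorem pf_S1 (hS : T_SLT) : T_S1 := by
  intro V _ _ G L X lab q U y y' hFy hFy' hG hlab
  have hyy : y ≠ y' := hG.ne
  obtain ⟨P, hP⟩ : ∃ P : Finset V, P = {y, y'} := ⟨_, rfl⟩
  have hPm : ∀ p, p ∈ P ↔ p = y ∨ p = y' := fun p => by rw [hP]; simp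
  have hPF : ∀ p ∈ P, FrP X lab q U p := by
    intro p hp
    rcases (hPm p).1 hp with h | h
    · rw [h]; exact hFy
    · rw [h]; exact hFy'
  have hPc : P.card ≤ 8 := by
    have := Finset.card_le_two (a := y) (b := y')
    rw [hP]
    omega
  obtain ⟨τ, hτ1, hτ2, hτ3⟩ := hS V lab q U P hPc (fun p hp => (hPF p hp).2.2)
  have hyP : y ∈ P := (hPm y).2 (Or.inl rfl)
  have hyP' : y' ∈ P := (hPm y').2 (Or.inr rfl)
  obtain ⟨E0, hE0⟩ : ∃ E : Finset (Sym2 V), E = {s(y, y')} := ⟨_, rfl⟩
  have hEm : ∀ (i : Fin 3) (e : Sym2 V), e ∈ ![E0, ∅, E0] i → e = s(y, y') := by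
    intro i e he
    fin_cases i
    · have he' : e ∈ E0 := he
      rw [hE0] at he'
      exact Finset.mem_singleton.1 he'
    · exact absurd he (Finset.notMem_empty e)
    · have he' : e ∈ E0 := he
      rw [hE0] at he'
      exact Finset.mem_singleton.1 he'
  have hnb : nbs L (∅ : Finset V) = ∅ := by
    unfold nbs
    simp
  refine ⟨⟨∅, P, y, y', ![E0, ∅, E0]⟩, τ, ?_, ?_, rfl, rfl⟩
  · refine ⟨?_, ?_, ?_, hPc, hyP, hyP', hlab, ?_, ?_, ?_, ?_, ?_, ?_, ?_, ?_, ?_⟩
    · exact Finset.empty_subset _
    · exact Nat.zero_le _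
    · exact fun p hp => (hPF p hp).1
    · intro i e he
      rw [hEm i e he]
      exact hG
    · intro i u v he
      show u ∈ ∅ ∪ nbs L ∅ ∪ P
      rw [Finset.mem_union]
      right
      rw [hPm]
      rcases Sym2.eq_iff.1 (hEm i _ he) with ⟨h, -⟩ | ⟨h, -⟩
      · exact Or.inl h
      · exact Or.inr h
    · intro i u v he hu hv
      exfalso
      rcases Sym2.eq_iff.1 (hEm i _ he) with ⟨h, -⟩ | ⟨h, -⟩
      · exact hFy.1 (h ▸ hu)
      · exact hFy'.1 (h ▸ hu)
    · intro i u v he _ _
      rcases Sym2.eq_iff.1 (hEm i _ he) with ⟨h, h'⟩ | ⟨h, h'⟩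
      · rw [h, h']; exact hlab
      · rw [h, h']; exact hlab.symm
    · intro i x hx
      exact absurd hx (Finset.notMem_empty x)
    · intro i s hs
      have hs' : s ∈ nbs L (∅ : Finset V) := hs
      rw [hnb] at hs'
      exact absurd hs' (Finset.notMem_empty s)
    · intro i p hp
      show edeg (![E0, ∅, E0] i) p ≤ 1
      have h1 : edeg E0 p ≤ 1 := by
        rw [hE0, edeg_singleton]
        split_ifs <;> omega
      fin_cases i
      · exact h1
      · show edeg ∅ p ≤ 1
        rw [edeg_empty]
        omega
      · exact h1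
    · show (SimpleGraph.fromEdgeSet ((E0 : Finset (Sym2 V)) : Set (Sym2 V))).Reachable y y'
      have c1 : (SimpleGraph.fromEdgeSet ((E0 : Finset (Sym2 V)) : Set (Sym2 V))).Adj y y' := by
        rw [SimpleGraph.fromEdgeSet_adj]
        refine ⟨?_, hyy⟩
        rw [Finset.mem_coe, hE0]
        exact Finset.mem_singleton_self _
      exact c1.reachable
    · intro c
      show (∑ p ∈ P.filter (fun p => lab p = c), (edeg ∅ p + edeg E0 p)) % 2 =
        ((if lab y = c then 1 else 0) + (if lab y' = c then 1 else 0)) % 2
      have e1 : (∑ p ∈ P.filter (fun p => lab p = c), (edeg ∅ p + edeg E0 p)) =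
          (∑ p ∈ P.filter (fun p => lab p = c),
            ((if p = y then 1 else 0) + (if p = y' then 1 else 0))) := by
        refine Finset.sum_congr rfl (fun p _ => ?_)
        rw [edeg_empty, hE0, edeg_singleton, zero_add]
        by_cases h1 : p = y
        · have h2 : p ≠ y' := fun h => hyy (h1.symm.trans h)
          simp [h1, hyy]
        · simp [h1]
      rw [e1, Finset.sum_add_distrib, Finset.sum_ite_eq', Finset.sum_ite_eq']
      simp only [Finset.mem_filter, hyP, hyP', true_and]
  · refine ⟨hτ1, hτ2, ?_, hτ3⟩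
    intro v hv
    have hv' : v ∈ (∅ : Finset V) ∪ nbs L ∅ ∪ P := hv
    rw [hnb] at hv'
    simp only [Finset.union_idempotent, Finset.empty_union] at hv'
    exact (hPF v hv').2.1

end Pool.Agent.H7.JW
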