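import Pool.Agent.H56.JW.Targets

/-!
# MP_959f6e_co, row S3: connectors through two adjacent leftover vertices
-/

set_option autoImplicit false

open Finset

namespace Pool.Agent.H7.JW

open Pool.Agent.H56.JW

variable {V : Type} [DecidableEq V]

theorem edeg_insert (E : Finset (Sym2 V)) (e : Sym2 V) (he : e ∉ E) (v : V) :
    edeg (insert e E) v = (if v ∈ e then 1 else 0) + edeg E v := by
  classical
  unfold edeg
  rw [Finset.filter_insert]
  by_cases hv : v ∈ e
  · rw [if_pos hv, if_pos hv, Finset.card_insert_of_notMem]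
    · ring
    · intro h
      exact he (Finset.mem_filter.1 h).1
  · rw [if_neg hv, if_neg hv, zero_add]

/-- the pendant edges -/
def pend (N : Finset V) (z : V → V) : Finset (Sym2 V) := N.image fun s => s(s, z s)

theorem mem_pend {N : Finset V} {z : V → V} {e : Sym2 V} :
    e ∈ pend N z ↔ ∃ s ∈ N, s(s, z s) = e := by
  unfold pend
  rw [Finset.mem_image]

theorem edeg_pend_zero (N : Finset V) (z : V → V) (v : V) (h1 : v ∉ N)
    (h2 : ∀ s ∈ N, z s ≠ v) : edeg (pend N z) v = 0 := by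
  classical
  unfold edeg
  rw [Finset.card_eq_zero, Finset.filter_eq_empty_iff]
  intro e he hv
  obtain ⟨s, hs, rfl⟩ := mem_pend.1 he
  rcases Sym2.mem_iff.1 hv with h | h
  · exact h1 (h ▸ hs)
  · exact h2 s hs h.symm

theorem edeg_pend_left (N : Finset V) (z : V → V) (s : V) (hs : s ∈ N)
    (h2 : ∀ t ∈ N, z t ≠ s) : edeg (pend N z) s = 1 := by
  classical
  unfold edeg
  rw [Finset.card_eq_one]
  refine ⟨s(s, z s), ?_⟩
  ext e
  rw [Finset.mem_filter, Finset.mem_singleton]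
  constructor
  · rintro ⟨he, hv⟩
    obtain ⟨t, ht, rfl⟩ := mem_pend.1 he
    rcases Sym2.mem_iff.1 hv with h | h
    · rw [h]
    · exact absurd h.symm (h2 t ht)
  · rintro rfl
    exact ⟨mem_pend.2 ⟨s, hs, rfl⟩, Sym2.mem_mk_left _ _⟩

theorem edeg_pend_right (N : Finset V) (z : V → V) (s : V) (hs : s ∈ N)
    (h1 : z s ∉ N) (h2 : ∀ t ∈ N, z t = z s → t = s) : edeg (pend N z) (z s) = 1 := by
  classical
  unfold edeg
  rw [Finset.card_eq_one]
  refine ⟨s(s, z s), ?_⟩
  ext e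
  rw [Finset.mem_filter, Finset.mem_singleton]
  constructor
  · rintro ⟨he, hv⟩
    obtain ⟨t, ht, rfl⟩ := mem_pend.1 he
    rcases Sym2.mem_iff.1 hv with h | h
    · exact absurd (h ▸ ht) h1
    · rw [h2 t ht h.symm]
  · rintro rfl
    exact ⟨mem_pend.2 ⟨s, hs, rfl⟩, Sym2.mem_mk_right _ _⟩

theorem notMem_pend {N : Finset V} {z : V → V} {a b : V} (ha : a ∉ N) (hb : b ∉ N) :
    s(a, b) ∉ pend N z := by
  intro h
  obtain ⟨s, hs, h1⟩ := mem_pend.1 h
  rcases Sym2.eq_iff.1 h1 with ⟨h2, -⟩ | ⟨h2, -⟩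
  · exact ha (h2 ▸ hs)
  · exact hb (h2 ▸ hs)

open Classical in
theorem pf_S3 (hS : T_SLT) (hC : T_CHZ) : T_S3 := by
  intro V _ _ G L X lab q U x x' y y' hdg hLX hUx hUx' hGxx hno hFy hFy' hGxy hGxy' hlab
  obtain ⟨hGx, hxs⟩ := hUx
  obtain ⟨hGx', hxs'⟩ := hUx'
  have hxX : x ∈ X := hGx.1
  have hxX' : x' ∈ X := hGx'.1
  have hxx : x ≠ x' := hGxx.ne
  have hyy : y ≠ y' := fun h => hlab (by rw [h])
  obtain ⟨z0, hz0, hz0i⟩ := hC V G X lab q U {x, x'} {y, y'}
    (by
      have h1 := Finset.card_le_two (a := x) (b := x')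
      have h2 := Finset.card_le_two (a := y) (b := y')
      omega)
    (by
      intro s hs
      rcases Finset.mem_insert.1 hs with h | h
      · rw [h]; exact hGx
      · rw [Finset.mem_singleton.1 h]; exact hGx')
  obtain ⟨w, hw⟩ : ∃ w, w = z0 x := ⟨_, rfl⟩
  obtain ⟨w', hw'⟩ : ∃ w', w' = z0 x' := ⟨_, rfl⟩
  obtain ⟨hFw, hGw, hwA⟩ := hz0 x (by simp)
  obtain ⟨hFw', hGw', hwA'⟩ := hz0 x' (by simp)
  rw [← hw] at hFw hGw hwA
  rw [← hw'] at hFw' hGw' hwA'
  have hww : w ≠ w' := by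
    intro h
    rw [hw, hw'] at h
    exact hxx (hz0i x (by simp) x' (by simp) h)
  simp only [Finset.mem_insert, Finset.mem_singleton, not_or] at hwA hwA'
  have hwy : w ≠ y := hwA.1
  have hwy' : w ≠ y' := hwA.2
  have hw'y : w' ≠ y := hwA'.1
  have hw'y' : w' ≠ y' := hwA'.2
  -- the neighbours
  obtain ⟨D, hD⟩ : ∃ D : Finset V, D = {x, x'} := ⟨_, rfl⟩
  have hDm : ∀ v, v ∈ D ↔ v = x ∨ v = x' := fun v => by rw [hD]; simp
  obtain ⟨N, hN⟩ : ∃ N : Finset V, N = nbs L D := ⟨_, rfl⟩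
  have hNm : ∀ s, s ∈ N ↔ (s ≠ x ∧ s ≠ x') ∧ (L.Adj s x ∨ L.Adj s x') := by
    intro s
    rw [hN]
    unfold nbs
    rw [Finset.mem_filter, hDm]
    constructor
    · rintro ⟨-, h1, v, hv, h2⟩
      push Not at h1
      rcases (hDm v).1 hv with h | h
      · exact ⟨h1, Or.inl (h ▸ h2)⟩
      · exact ⟨h1, Or.inr (h ▸ h2)⟩
    · rintro ⟨h1, h2 | h2⟩
      · exact ⟨Finset.mem_univ _, by push Not; exact h1, x, (hDm x).2 (Or.inl rfl), h2⟩
      · exact ⟨Finset.mem_univ _, by push Not; exact h1, x', (hDm x').2 (Or.inr rfl), h2⟩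
  have hNX : ∀ s ∈ N, s ∈ X := by
    intro s hs
    rcases ((hNm s).1 hs).2 with h | h
    · exact (hLX s x h).1
    · exact (hLX s x' h).1
  have hNg : ∀ s ∈ N, GdX G X lab q U s := by
    intro s hs
    rcases ((hNm s).1 hs).2 with h | h
    · exact hxs s h.symm
    · exact hxs' s h.symm
  have hNc : N.card ≤ 4 := by
    have h1 : (N : Set V) ⊆ L.neighborSet x ∪ L.neighborSet x' := by
      intro s hs
      rcases ((hNm s).1 (Finset.mem_coe.1 hs)).2 with h | h
      · exact Or.inl h.symm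
      · exact Or.inr h.symm
    have h2 := Set.ncard_le_ncard h1 (Set.toFinite _)
    rw [Set.ncard_coe_finset] at h2
    have h3 := Set.ncard_union_le (L.neighborSet x) (L.neighborSet x')
    have h4 := hdg x
    have h5 := hdg x'
    unfold dg at h4 h5
    omega
  have hA4 : ({y, y', w, w'} : Finset V).card ≤ 4 := Finset.card_le_four
  obtain ⟨z, hz, hzi⟩ := hC V G X lab q U N {y, y', w, w'} (by omega) hNg
  have hzA : ∀ s ∈ N, z s ≠ y ∧ z s ≠ y' ∧ z s ≠ w ∧ z s ≠ w' := by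
    intro s hs
    have h1 := (hz s hs).2.2
    simp only [Finset.mem_insert, Finset.mem_singleton, not_or] at h1
    exact h1
  have hzX : ∀ s ∈ N, z s ∉ X := fun s hs => (hz s hs).1.1
  -- the packed vertices
  obtain ⟨P, hP⟩ : ∃ P : Finset V, P = {y, y', w, w'} ∪ N.image z := ⟨_, rfl⟩
  have hPm : ∀ p, p ∈ P ↔ (p = y ∨ p = y' ∨ p = w ∨ p = w') ∨ ∃ s ∈ N, z s = p := by
    intro p
    rw [hP]
    simp only [Finset.mem_union, Finset.mem_insert, Finset.mem_singleton, Finset.mem_image]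
  have hPF : ∀ p ∈ P, FrP X lab q U p := by
    intro p hp
    rcases (hPm p).1 hp with (h | h | h | h) | ⟨s, hs, h⟩
    · rw [h]; exact hFy
    · rw [h]; exact hFy'
    · rw [h]; exact hFw
    · rw [h]; exact hFw'
    · rw [← h]; exact (hz s hs).1
  have hPc : P.card ≤ 8 := by
    rw [hP]
    have h1 := Finset.card_union_le ({y, y', w, w'} : Finset V) (N.image z)
    have h2 : (N.image z).card ≤ N.card := Finset.card_image_le
    omega
  obtain ⟨τ, hτ1, hτ2, hτ3⟩ := hS V lab q U P hPc (fun p hp => (hPF p hp).2.2)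
  -- all the inequalities
  have hyX : y ∉ X := hFy.1
  have hyX' : y' ∉ X := hFy'.1
  have hwX : w ∉ X := hFw.1
  have hwX' : w' ∉ X := hFw'.1
  have hne : ∀ {a b : V}, a ∈ X → b ∉ X → a ≠ b := fun ha hb h => hb (h ▸ ha)
  have n1 : x ≠ y := hne hxX hyX
  have n2 : x ≠ y' := hne hxX hyX'
  have n3 : x ≠ w := hne hxX hwX
  have n4 : x ≠ w' := hne hxX hwX'
  have n5 : x' ≠ y := hne hxX' hyX
  have n6 : x' ≠ y' := hne hxX' hyX'
  have n7 : x' ≠ w := hne hxX' hwX
  have n8 : x' ≠ w' := hne hxX' hwX'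
  have hxN : x ∉ N := fun h => ((hNm x).1 h).1.1 rfl
  have hxN' : x' ∉ N := fun h => ((hNm x').1 h).1.2 rfl
  have hyN : y ∉ N := fun h => hyX (hNX y h)
  have hyN' : y' ∉ N := fun h => hyX' (hNX y' h)
  have hwN : w ∉ N := fun h => hwX (hNX w h)
  have hwN' : w' ∉ N := fun h => hwX' (hNX w' h)
  have zx : edeg (pend N z) x = 0 :=
    edeg_pend_zero N z x hxN (fun s hs => (hne hxX (hzX s hs)).symm)
  have zx' : edeg (pend N z) x' = 0 :=
    edeg_pend_zero N z x' hxN' (fun s hs => (hne hxX' (hzX s hs)).symm)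
  have zy : edeg (pend N z) y = 0 := edeg_pend_zero N z y hyN (fun s hs => (hzA s hs).1)
  have zy' : edeg (pend N z) y' = 0 := edeg_pend_zero N z y' hyN' (fun s hs => (hzA s hs).2.1)
  have zw : edeg (pend N z) w = 0 := edeg_pend_zero N z w hwN (fun s hs => (hzA s hs).2.2.1)
  have zw' : edeg (pend N z) w' = 0 := edeg_pend_zero N z w' hwN' (fun s hs => (hzA s hs).2.2.2)
  have zs : ∀ s ∈ N, edeg (pend N z) s = 1 := fun s hs =>
    edeg_pend_left N z s hs (fun t ht => (hne (hNX s hs) (hzX t ht)).symm)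
  have zz : ∀ s ∈ N, edeg (pend N z) (z s) = 1 := fun s hs =>
    edeg_pend_right N z s hs (fun h => hzX s hs (hNX _ h)) (fun t ht h => hzi t ht s hs h)
  -- the edge sets
  obtain ⟨E0, hE0⟩ : ∃ E : Finset (Sym2 V),
    E = insert s(x, y) (insert s(x, x') (insert s(x', y') (pend N z))) := ⟨_, rfl⟩
  obtain ⟨E1, hE1⟩ : ∃ E : Finset (Sym2 V),
    E = insert s(x, y) (insert s(x, w) (insert s(x', y') (insert s(x', w') (pend N z)))) :=
    ⟨_, rfl⟩
  obtain ⟨E2, hE2⟩ : ∃ E : Finset (Sym2 V),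
    E = insert s(x, w) (insert s(x, x') (insert s(x', w') (pend N z))) := ⟨_, rfl⟩
  have p1 : s(x, y) ∉ pend N z := notMem_pend hxN hyN
  have p2 : s(x, x') ∉ pend N z := notMem_pend hxN hxN'
  have p3 : s(x', y') ∉ pend N z := notMem_pend hxN' hyN'
  have p4 : s(x, w) ∉ pend N z := notMem_pend hxN hwN
  have p5 : s(x', w') ∉ pend N z := notMem_pend hxN' hwN'
  have d0 : ∀ v, edeg E0 v = (if v = x ∨ v = y then 1 else 0) +
      ((if v = x ∨ v = x' then 1 else 0) + ((if v = x' ∨ v = y' then 1 else 0) +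
        edeg (pend N z) v)) := by
    intro v
    rw [hE0, edeg_insert, edeg_insert, edeg_insert _ _ p3]
    · simp only [Sym2.mem_iff]
    · simp only [Finset.mem_insert, Sym2.eq_iff, not_or]
      exact ⟨by tauto, p2⟩
    · simp only [Finset.mem_insert, Sym2.eq_iff, not_or]
      exact ⟨by tauto, by tauto, p1⟩
  have d1 : ∀ v, edeg E1 v = (if v = x ∨ v = y then 1 else 0) +
      ((if v = x ∨ v = w then 1 else 0) + ((if v = x' ∨ v = y' then 1 else 0) +
        ((if v = x' ∨ v = w' then 1 else 0) + edeg (pend N z) v))) := by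
    intro v
    rw [hE1, edeg_insert, edeg_insert, edeg_insert, edeg_insert _ _ p5]
    · simp only [Sym2.mem_iff]
    · simp only [Finset.mem_insert, Sym2.eq_iff, not_or]
      exact ⟨by tauto, p3⟩
    · simp only [Finset.mem_insert, Sym2.eq_iff, not_or]
      exact ⟨by tauto, by tauto, p4⟩
    · simp only [Finset.mem_insert, Sym2.eq_iff, not_or]
      exact ⟨by tauto, by tauto, by tauto, p1⟩
  have d2 : ∀ v, edeg E2 v = (if v = x ∨ v = w then 1 else 0) +
      ((if v = x ∨ v = x' then 1 else 0) + ((if v = x' ∨ v = w' then 1 else 0) +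
        edeg (pend N z) v)) := by
    intro v
    rw [hE2, edeg_insert, edeg_insert, edeg_insert _ _ p5]
    · simp only [Sym2.mem_iff]
    · simp only [Finset.mem_insert, Sym2.eq_iff, not_or]
      exact ⟨by tauto, p2⟩
    · simp only [Finset.mem_insert, Sym2.eq_iff, not_or]
      exact ⟨by tauto, by tauto, p4⟩
  -- all edges
  have hall : ∀ e : Sym2 V, e ∈ E0 ∨ e ∈ E1 ∨ e ∈ E2 → e = s(x, y) ∨ e = s(x, x') ∨
      e = s(x', y') ∨ e = s(x, w) ∨ e = s(x', w') ∨ ∃ s ∈ N, s(s, z s) = e := by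
    intro e he
    rw [hE0, hE1, hE2] at he
    simp only [Finset.mem_insert, mem_pend] at he
    tauto
  -- the degrees
  have aD : ∀ E, E = E0 ∨ E = E1 ∨ E = E2 → edeg E x = 2 ∧ edeg E x' = 2 := by
    rintro E (rfl | rfl | rfl)
    · rw [d0, d0, zx, zx']
      simp [n1, n2, n5, n6, hxx, hxx.symm]
    · rw [d1, d1, zx, zx']
      simp [n1, n2, n3, n4, n5, n6, n7, n8, hxx, hxx.symm]
    · rw [d2, d2, zx, zx']
      simp [n3, n4, n7, n8, hxx, hxx.symm]
  have aN : ∀ E, E = E0 ∨ E = E1 ∨ E = E2 → ∀ s ∈ N, edeg E s = 1 ∧ edeg E (z s) = 1 := by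
    intro E hE s hs
    have h1 : s ≠ x := ((hNm s).1 hs).1.1
    have h2 : s ≠ x' := ((hNm s).1 hs).1.2
    have h3 : s ≠ y := hne (hNX s hs) hyX
    have h4 : s ≠ y' := hne (hNX s hs) hyX'
    have h5 : s ≠ w := hne (hNX s hs) hwX
    have h6 : s ≠ w' := hne (hNX s hs) hwX'
    have g1 : z s ≠ x := (hne hxX (hzX s hs)).symm
    have g2 : z s ≠ x' := (hne hxX' (hzX s hs)).symm
    obtain ⟨g3, g4, g5, g6⟩ := hzA s hs
    rcases hE with rfl | rfl | rfl
    · rw [d0, d0, zs s hs, zz s hs]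
      simp [h1, h2, h3, h4, g1, g2, g3, g4]
    · rw [d1, d1, zs s hs, zz s hs]
      simp [h1, h2, h3, h4, h5, h6, g1, g2, g3, g4, g5, g6]
    · rw [d2, d2, zs s hs, zz s hs]
      simp [h1, h2, h5, h6, g1, g2, g5, g6]
  have aP : ∀ E, E = E0 ∨ E = E1 ∨ E = E2 → edeg E y ≤ 1 ∧ edeg E y' ≤ 1 ∧ edeg E w ≤ 1 ∧
      edeg E w' ≤ 1 := by
    rintro E (rfl | rfl | rfl)
    · rw [d0, d0, d0, d0, zy, zy', zw, zw']
      simp [n1.symm, n2.symm, n3.symm, n4.symm, n5.symm, n6.symm, n7.symm, n8.symm, hyy,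
        hyy.symm, hwy, hwy', hw'y, hw'y']
    · rw [d1, d1, d1, d1, zy, zy', zw, zw']
      simp [n1.symm, n2.symm, n3.symm, n4.symm, n5.symm, n6.symm, n7.symm, n8.symm, hyy,
        hyy.symm, hwy, hwy', hw'y, hw'y', hwy.symm, hwy'.symm, hw'y.symm, hw'y'.symm, hww,
        hww.symm]
    · rw [d2, d2, d2, d2, zy, zy', zw, zw']
      simp [n1.symm, n2.symm, n3.symm, n4.symm, n5.symm, n6.symm, n7.symm, n8.symm, hyy,
        hyy.symm, hwy, hwy', hw'y, hw'y', hwy.symm, hwy'.symm, hw'y.symm, hw'y'.symm, hww,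
        hww.symm]
  have aT : ∀ p ∈ P, (edeg E1 p + edeg E2 p) % 2 =
      ((if p = y then 1 else 0) + (if p = y' then 1 else 0)) % 2 := by
    intro p hp
    rcases (hPm p).1 hp with (rfl | rfl | rfl | rfl) | ⟨s, hs, rfl⟩
    · rw [d1, d2, zy]
      simp [n1.symm, n5.symm, hyy, hwy.symm, hw'y.symm]
    · rw [d1, d2, zy']
      simp [n2.symm, n6.symm, hyy.symm, hwy'.symm, hw'y'.symm]
    · rw [d1, d2, zw]
      simp [n3.symm, n7.symm, hwy, hwy', hww]
    · rw [d1, d2, zw']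
      simp [n4.symm, n8.symm, hw'y, hw'y', hww.symm]
    · rw [(aN E1 (by tauto) s hs).2, (aN E2 (by tauto) s hs).2]
      obtain ⟨g3, g4, g5, g6⟩ := hzA s hs
      simp [g3, g4]
  have hyP : y ∈ P := (hPm y).2 (by tauto)
  have hyP' : y' ∈ P := (hPm y').2 (by tauto)
  have hE3 : ∀ i : Fin 3, (![E0, E1, E2] i = E0 ∨ ![E0, E1, E2] i = E1 ∨
      ![E0, E1, E2] i = E2) := by
    intro i
    fin_cases i
    · exact Or.inl rfl
    · exact Or.inr (Or.inl rfl)
    · exact Or.inr (Or.inr rfl)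
  have hEm : ∀ (i : Fin 3) (e : Sym2 V), e ∈ ![E0, E1, E2] i → e ∈ E0 ∨ e ∈ E1 ∨ e ∈ E2 := by
    intro i e he
    rcases hE3 i with h | h | h
    · rw [h] at he; tauto
    · rw [h] at he; tauto
    · rw [h] at he; tauto
  refine ⟨⟨D, P, y, y', ![E0, E1, E2]⟩, τ, ?_, ?_, rfl, rfl⟩
  · refine ⟨?_, ?_, ?_, hPc, hyP, hyP', hlab, ?_, ?_, ?_, ?_, ?_, ?_, ?_, ?_, ?_⟩
    · -- DX
      intro v hv
      rcases (hDm v).1 hv with h | h
      · rw [h]; exact hxX
      · rw [h]; exact hxX'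
    · -- Dc
      show D.card ≤ 2
      rw [hD]
      exact Finset.card_le_two
    · -- PX
      exact fun p hp => (hPF p hp).1
    · -- adj
      intro i e he
      rcases hall e (hEm i e he) with rfl | rfl | rfl | rfl | rfl | ⟨s, hs, rfl⟩
      · exact hGxy
      · exact hGxx
      · exact hGxy'
      · exact hGw
      · exact hGw'
      · exact (hz s hs).2.1
    · -- sup
      intro i u v he
      show u ∈ D ∪ nbs L D ∪ P
      rw [← hN]
      simp only [Finset.mem_union, hDm]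
      rcases hall _ (hEm i _ he) with h | h | h | h | h | ⟨s, hs, h⟩
      · rcases Sym2.eq_iff.1 h with ⟨h, -⟩ | ⟨h, -⟩
        · left; left; left; exact h
        · right; exact (hPm u).2 (by tauto)
      · rcases Sym2.eq_iff.1 h with ⟨h, -⟩ | ⟨h, -⟩
        · left; left; left; exact h
        · left; left; right; exact h
      · rcases Sym2.eq_iff.1 h with ⟨h, -⟩ | ⟨h, -⟩
        · left; left; right; exact h
        · right; exact (hPm u).2 (by tauto)
      · rcases Sym2.eq_iff.1 h with ⟨h, -⟩ | ⟨h, -⟩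
        · left; left; left; exact h
        · right; exact (hPm u).2 (by tauto)
      · rcases Sym2.eq_iff.1 h with ⟨h, -⟩ | ⟨h, -⟩
        · left; left; right; exact h
        · right; exact (hPm u).2 (by tauto)
      · rcases Sym2.eq_iff.1 h with ⟨h, -⟩ | ⟨-, h⟩
        · left; right; rw [← h]; exact hs
        · right; exact (hPm u).2 (Or.inr ⟨s, hs, h⟩)
    · -- XX
      intro i u v he hu hv
      show u ∈ D ∧ v ∈ D
      rw [hDm, hDm]
      rcases hall _ (hEm i _ he) with h | h | h | h | h | ⟨s, hs, h⟩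
      · rcases Sym2.eq_iff.1 h with ⟨-, h⟩ | ⟨h, -⟩
        · exact absurd (h ▸ hv) hyX
        · exact absurd (h ▸ hu) hyX
      · rcases Sym2.eq_iff.1 h with ⟨h, h'⟩ | ⟨h, h'⟩
        · exact ⟨Or.inl h, Or.inr h'⟩
        · exact ⟨Or.inr h, Or.inl h'⟩
      · rcases Sym2.eq_iff.1 h with ⟨-, h⟩ | ⟨h, -⟩
        · exact absurd (h ▸ hv) hyX'
        · exact absurd (h ▸ hu) hyX'
      · rcases Sym2.eq_iff.1 h with ⟨-, h⟩ | ⟨h, -⟩
        · exact absurd (h ▸ hv) hwX
        · exact absurd (h ▸ hu) hwX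
      · rcases Sym2.eq_iff.1 h with ⟨-, h⟩ | ⟨h, -⟩
        · exact absurd (h ▸ hv) hwX'
        · exact absurd (h ▸ hu) hwX'
      · rcases Sym2.eq_iff.1 h with ⟨-, h⟩ | ⟨-, h⟩
        · exact absurd (h ▸ hv) (hzX s hs)
        · exact absurd (h ▸ hu) (hzX s hs)
    · -- PP
      intro i u v he hu hv
      exfalso
      rcases hall _ (hEm i _ he) with h | h | h | h | h | ⟨s, hs, h⟩
      · rcases Sym2.eq_iff.1 h with ⟨h, -⟩ | ⟨-, h⟩
        · exact hu (h ▸ hxX)
        · exact hv (h ▸ hxX)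
      · rcases Sym2.eq_iff.1 h with ⟨h, -⟩ | ⟨-, h⟩
        · exact hu (h ▸ hxX)
        · exact hv (h ▸ hxX)
      · rcases Sym2.eq_iff.1 h with ⟨h, -⟩ | ⟨-, h⟩
        · exact hu (h ▸ hxX')
        · exact hv (h ▸ hxX')
      · rcases Sym2.eq_iff.1 h with ⟨h, -⟩ | ⟨-, h⟩
        · exact hu (h ▸ hxX)
        · exact hv (h ▸ hxX)
      · rcases Sym2.eq_iff.1 h with ⟨h, -⟩ | ⟨-, h⟩
        · exact hu (h ▸ hxX')
        · exact hv (h ▸ hxX')
      · rcases Sym2.eq_iff.1 h with ⟨h, -⟩ | ⟨h, -⟩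
        · exact hu (h ▸ hNX s hs)
        · exact hv (h ▸ hNX s hs)
    · -- dD
      intro i v hv
      show edeg (![E0, E1, E2] i) v = 2
      rcases (hDm v).1 hv with h | h
      · rw [h]; exact (aD _ (hE3 i)).1
      · rw [h]; exact (aD _ (hE3 i)).2
    · -- dN
      intro i s hs
      show edeg (![E0, E1, E2] i) s = pdeg L D s
      have hs' : s ∈ N := by rw [hN]; exact hs
      rw [(aN _ (hE3 i) s hs').1]
      symm
      unfold pdeg
      rw [hD]
      rcases ((hNm s).1 hs').2 with h | h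
      · have h' : ¬ L.Adj s x' := fun h2 => hno s ⟨h.symm, h2.symm⟩
        rw [Finset.filter_insert, if_pos h, Finset.filter_singleton, if_neg h']
        simp
      · have h' : ¬ L.Adj s x := fun h2 => hno s ⟨h2.symm, h.symm⟩
        rw [Finset.filter_insert, if_neg h', Finset.filter_singleton, if_pos h]
        simp
    · -- dP
      intro i p hp
      show edeg (![E0, E1, E2] i) p ≤ 1
      obtain ⟨b1, b2, b3, b4⟩ := aP _ (hE3 i)
      rcases (hPm p).1 hp with (rfl | rfl | rfl | rfl) | ⟨s, hs, rfl⟩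
      · exact b1
      · exact b2
      · exact b3
      · exact b4
      · exact ((aN _ (hE3 i) s hs).2).le
    · -- con
      show (SimpleGraph.fromEdgeSet ((E0 : Finset (Sym2 V)) : Set (Sym2 V))).Reachable y y'
      have c1 : (SimpleGraph.fromEdgeSet ((E0 : Finset (Sym2 V)) : Set (Sym2 V))).Adj y x := by
        rw [SimpleGraph.fromEdgeSet_adj]
        refine ⟨?_, n1.symm⟩
        rw [Finset.mem_coe, hE0, Sym2.eq_swap]
        exact Finset.mem_insert_self _ _
      have c2 : (SimpleGraph.fromEdgeSet ((E0 : Finset (Sym2 V)) : Set (Sym2 V))).Adj x x' := by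
        rw [SimpleGraph.fromEdgeSet_adj]
        refine ⟨?_, hxx⟩
        rw [Finset.mem_coe, hE0]
        simp
      have c3 : (SimpleGraph.fromEdgeSet ((E0 : Finset (Sym2 V)) : Set (Sym2 V))).Adj x' y' := by
        rw [SimpleGraph.fromEdgeSet_adj]
        refine ⟨?_, n6⟩
        rw [Finset.mem_coe, hE0]
        simp
      exact (c1.reachable.trans c2.reachable).trans c3.reachable
    · -- tog
      intro c
      show (∑ p ∈ P.filter (fun p => lab p = c), (edeg E1 p + edeg E2 p)) % 2 =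
        ((if lab y = c then 1 else 0) + (if lab y' = c then 1 else 0)) % 2
      have e1 : (∑ p ∈ P.filter (fun p => lab p = c), (edeg E1 p + edeg E2 p)) % 2 =
          (∑ p ∈ P.filter (fun p => lab p = c),
            ((if p = y then 1 else 0) + (if p = y' then 1 else 0))) % 2 := by
        rw [Finset.sum_nat_mod, Finset.sum_congr rfl (fun p hp => aT p (Finset.mem_filter.1 hp).1),
          ← Finset.sum_nat_mod]
      rw [e1, Finset.sum_add_distrib, Finset.sum_ite_eq', Finset.sum_ite_eq']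
      simp only [Finset.mem_filter, hyP, hyP', true_and]
  · refine ⟨hτ1, hτ2, ?_, hτ3⟩
    intro v hv
    have hv' : v ∈ D ∪ nbs L D ∪ P := hv
    rw [← hN, Finset.mem_union, Finset.mem_union] at hv'
    rcases hv' with (h | h) | h
    · rcases (hDm v).1 h with h | h
      · rw [h]; exact hGx.2.1
      · rw [h]; exact hGx'.2.1
    · exact (hNg v h).2.1
    · exact (hPF v h).2.1

end Pool.Agent.H7.JW
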